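import Pool.Agent.H33.TO.SpinG
import Pool.Agent.H33.TO.AdjB
import Pool.Agent.H33.EF.Adj2
import Pool.Agent.H33.EF.Sub3
import Pool.Agent.H33.EF.OfEL
import Pool.Agent.H33.EF.OfEQ
import Pool.Agent.H33.EF.Hyp6x
import Pool.Agent.H27.E7.Hyp7b
import Pool.Agent.H26.E2.Fin
import Pool.Agent.H31.F4.StdP4
import Pool.Agent.H40.GT.ZoF

/-!
# Overgroups of the split maximal torus over small fields: the full answer (MP_a408f4_al, Q1)

The standard description holds for the types B_l (`l ≥ 3`), E_6, E_7, E_8, F_4, G_2 over the fields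
with 7, 8, 9, 11 elements (odd characteristic for B_l, F_4, characteristic not 2, 3 for G_2), for
the simply connected and for the adjoint groups.

* B_l, simply connected (`StdSpin`): `Spin l K` is the spin group of the split quadratic form in `2 l + 1`
  variables (Mathlib's Clifford algebra); `InT`: the split maximal torus, `GS' K S`: the
  group `G(S)`, `ClosedRt`: closed sets of roots.
* B_l, adjoint (`StdB`): `GB K S` is the group `G(S)` generated by the torus `TB l K` of all diagonal maps
  with entries `τ_i, 1, τ_i⁻¹` and the root groups `XB K α` (Siegel transformations `xB a b c`) of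
  the roots in `S`; `GB K (Phi l)` is the special orthogonal group of this form.
* E_6, E_7, E_8: `EF.AllStd C K` (file `H33/EF/Def`): `GP C K` is the group generated by the root
  groups `XP K a = {x_a(s)}` acting on the Chevalley Lie algebra `LL C K` of the root system with
  Cartan matrix `C`, `TP C K` its split torus.  The statement is for every group `G` with a
  homomorphism `π` onto `GP C K`, every subgroup `T` containing the kernel with image `TP C K` and
  subgroups `X a` with image `XP K a`: the group `GP C K` itself and the simply connected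
  group `G(K)` (`ker π` is its centre, which lies in the torus).
* E_6, E_7, adjoint: `EF.AdStd C K` (file `H33/EF/Adj`): `TA C K` is the full torus
  `{h(t)}`, `h(t)` multiplies `e_b` by `∏ t_i ^ b_i` (`b = ∑ b_i α_i`), the adjoint group `G(K)` is
  generated by `TA C K` and the root groups.
* F_4: `AllStd4 K` (file `H31/F4/StdD4`): the same statement for the group `GP4 K` of type F_4,
  generated by the root elements fixed by the graph automorphism in the group of type E_6.
* G_2: `StdP F` (file `H40/GT/ZoP`): `GP K` is the automorphism group of the split octonion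
  algebra, `TP K` its split torus.
* E_7 with `|K| = 8` and E_6 with `|K| = 9`, where the simply connected and the adjoint group
  coincide: `EF.SubStd CartanMatrix.E₈ K M` (file `H33/EF/Sub2`) is the same statement for the group
  `GPM` generated by the root groups of the roots in `M` and its torus `TPM`; `M7`, `M6`: the roots of
  `E_8` which are combinations of the first seven (six) simple roots, a root system of type
  E_7 (E_6).
-/

namespace Pool.Agent.Results.MP_a408f4_al.FullTorus

open Pool.Agent

/-- the standard description for the group of type `G_2` -/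
def StdG2 (K : Type) [Field K] : Prop :=
  ∀ F : Subgroup (Equiv.Perm (H40.GT.Zo K)), H40.GT.TP K ≤ F → F ≤ H40.GT.GP K → H40.GT.StdP F

theorem result (K : Type) [Field K] :
    -- type B_l, the simply connected and the adjoint group
    ((Nat.card K = 7 ∨ Nat.card K = 9 ∨ Nat.card K = 11) →
      ∀ l : ℕ, 3 ≤ l → H33.TO.StdSpin l K ∧ H33.TO.StdB l K) ∧
    -- type E_6, the simply connected and the adjoint group
    ((Nat.card K = 7 ∨ Nat.card K = 8 ∨ Nat.card K = 11) →
      H33.EF.AllStd CartanMatrix.E₆ K ∧ H33.EF.AdStd CartanMatrix.E₆ K) ∧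
    (Nat.card K = 9 → H33.EF.SubStd CartanMatrix.E₈ K H33.EF.M6) ∧
    -- type E_7, the simply connected and the adjoint group
    ((Nat.card K = 7 ∨ Nat.card K = 9 ∨ Nat.card K = 11) →
      H33.EF.AllStd CartanMatrix.E₇ K ∧ H33.EF.AdStd CartanMatrix.E₇ K) ∧
    (Nat.card K = 8 → H33.EF.SubStd CartanMatrix.E₈ K H33.EF.M7) ∧
    -- type E_8
    ((Nat.card K = 7 ∨ Nat.card K = 8 ∨ Nat.card K = 9 ∨ Nat.card K = 11) →
      H33.EF.AllStd CartanMatrix.E₈ K) ∧
    -- type F_4
    ((Nat.card K = 7 ∨ Nat.card K = 9 ∨ Nat.card K = 11) → H31.F4.AllStd4 K) ∧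
    -- type G_2
    ((Nat.card K = 7 ∨ Nat.card K = 11) → StdG2 K) := by
  refine ⟨?_, ?_, ?_, ?_, ?_, ?_, ?_, ?_⟩
  · intro hK l hl
    have hq : H33.TO.QK (Nat.card K) K := ⟨rfl, hK⟩
    exact ⟨H33.TO.stdSpin hq hl, H33.TO.stdB hq hl⟩
  · rintro (hK | hK | hK)
    · exact ⟨H33.EF.allStd_EL (H33.EL.hyp6 K hK), H33.EF.adStd (H33.EL.hyp6 K hK)⟩
    · have h8 : H33.EF.AllStd CartanMatrix.E₆ K :=
        H33.EF.allStd_EQ (H33.EF.hyp68 K hK) fun F X => H26.E2.no_ctx8 (H33.EF.hyp68 K hK) X
      exact ⟨h8, H33.EF.adStd_of h8 (H33.EF.TA_le_TP68 K hK)⟩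
    · exact ⟨H33.EF.allStd_EL (H33.EF.hyp6_11 K hK), H33.EF.adStd (H33.EF.hyp6_11 K hK)⟩
  · exact fun hK => H33.EF.sub6_9 hK
      (H33.EF.allStd_EL (H33.EL.hyp8 K (Or.inr (Or.inl hK))))
  · exact fun hK => ⟨H33.EF.allStd_EL (H33.EL.hyp7 K hK), H33.EF.adStd (H33.EL.hyp7 K hK)⟩
  · exact fun hK => H33.EF.sub7_8 hK (H33.EF.allStd_EQ (H33.EF.hyp88 K hK) fun F X =>
      H26.E2.no_ctx8 (H33.EF.hyp88 K hK) X)
  · rintro (hK | hK | hK | hK)
    · exact H33.EF.allStd_EL (H33.EL.hyp8 K (Or.inl hK))
    · exact H33.EF.allStd_EQ (H33.EF.hyp88 K hK) fun F X =>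
        H26.E2.no_ctx8 (H33.EF.hyp88 K hK) X
    · exact H33.EF.allStd_EL (H33.EL.hyp8 K (Or.inr (Or.inl hK)))
    · exact H33.EF.allStd_EL (H33.EL.hyp8 K (Or.inr (Or.inr hK)))
  · exact fun hK => H31.F4.allStd_F4 K hK
  · exact fun hK F h1 h2 => H40.GT.zp_main hK F h1 h2

end Pool.Agent.Results.MP_a408f4_al.FullTorus
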